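import Pool.Agent.C4K.StMul

/-!
Module PRE: the probability of many disjoint pairs of classes with duplicate links at a vertex, one
class fixed.
-/

set_option autoImplicit false

namespace Pool.Agent.C4K.H76

open Finset Cl Pool.Agent.C4K
open scoped Classical

noncomputable section

variable {V : Type} [Fintype V] {n : ℕ} {C : Fin n → Cl V} {T : ℕ}

omit [Fintype V] in
theorem qq_prob (c : Fin n) (p : ℝ) (h0 : 0 ≤ p) (h1 : p ≤ 1) :
    LLLA.IsProb (W := (C c).Wk T) (α := fun _ => Bool) (qq p) := by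
  refine ⟨fun w b => ?_, fun w => ?_⟩
  · cases b
    · show 0 ≤ 1 - p
      linarith
    · exact h0
  · simp [qq]

theorem cw_prob (p : ℝ) (h0 : 0 ≤ p) (h1 : p ≤ 1) :
    LLLA.IsProb (W := Fin n) (α := fun c => (C c).Wk T → Bool)
      (LLLA.cwt (K := fun c => (C c).Wk T) (β := fun _ => Bool) fun _ => qq p) :=
  LLLA.cwt_prob (K := fun c => (C c).Wk T) (β := fun _ => Bool) (fun c => qq_prob c p h0 h1)

/-- `m` disjoint pairs of classes with a common event -/
def dupG (L : ∀ c : Fin n, V → Set ((C c).Wk T → Bool)) (m : ℕ) : Set (Cf C T) :=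
  {om | ∃ B : Finset (Fin n × Fin n), B.card = m ∧
    (∀ a ∈ B, a.1 ≠ a.2 ∧ ∃ y, om a.1 ∈ L a.1 y ∧ om a.2 ∈ L a.2 y) ∧
    ∀ a ∈ B, ∀ b ∈ B, a ≠ b → Disjoint ({a.1, a.2} : Finset (Fin n)) {b.1, b.2}}

/-- the event of one pair -/
def evP (L : ∀ c : Fin n, V → Set ((C c).Wk T → Bool)) (a : Fin n × Fin n) : Set (Cf C T) :=
  {om | a.1 ≠ a.2 ∧ ∃ y, om a.1 ∈ L a.1 y ∧ om a.2 ∈ L a.2 y}

omit [Fintype V] in
theorem dep_evP (L : ∀ c : Fin n, V → Set ((C c).Wk T → Bool)) (a : Fin n × Fin n) :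
    LLLA.Dep (W := Fin n) (α := fun c => (C c).Wk T → Bool) {a.1, a.2}
      (fun om => om ∈ evP L a) := by
  intro om et h
  have h1 := h a.1 (by simp)
  have h2 := h a.2 (by simp)
  show (a.1 ≠ a.2 ∧ ∃ y, om a.1 ∈ L a.1 y ∧ om a.2 ∈ L a.2 y) =
    (a.1 ≠ a.2 ∧ ∃ y, et a.1 ∈ L a.1 y ∧ et a.2 ∈ L a.2 y)
  rw [h1, h2]

theorem Pr_evP (p : ℝ) (h0 : 0 ≤ p) (h1 : p ≤ 1) (L : ∀ c : Fin n, V → Set ((C c).Wk T → Bool))
    (α β : ℝ) (hα : ∀ c y, (C c).Pr T p (L c y) ≤ α) (hβ : ∀ c, ∑ y, (C c).Pr T p (L c y) ≤ β)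
    (hα0 : 0 ≤ α) (hβ0 : 0 ≤ β) (a : Fin n × Fin n) : PC C T p (evP L a) ≤ α * β := by
  have hq := cw_prob (C := C) (T := T) p h0 h1
  by_cases ha : a.1 = a.2
  · have h2 : evP L a = ∅ := by
      ext om
      simp [evP, ha]
    rw [h2]
    have h3 : PC C T p (∅ : Set (Cf C T)) = 0 := by
      unfold PC LLLA.Pr
      simp
    rw [h3]
    exact mul_nonneg hα0 hβ0
  have h2 : PC C T p (evP L a) ≤ ∑ y : V, PC C T p {om | ∀ c ∈ ({a.1, a.2} : Finset (Fin n)),
      om ∈ {om : Cf C T | om c ∈ L c y}} := by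
    refine le_trans (LLLA.Pr_mono hq ?_) (LLLA.Pr_exists_le hq (univ : Finset V)
      (fun y => {om | ∀ c ∈ ({a.1, a.2} : Finset (Fin n)), om ∈ {om : Cf C T | om c ∈ L c y}}))
    rintro om ⟨_, y, hy1, hy2⟩
    refine ⟨y, mem_univ y, ?_⟩
    intro c hc
    rcases Finset.mem_insert.1 hc with rfl | hc
    · exact hy1
    · rw [Finset.mem_singleton] at hc
      subst hc
      exact hy2
  refine h2.trans ?_
  have h3 : ∀ y, PC C T p {om | ∀ c ∈ ({a.1, a.2} : Finset (Fin n)),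
      om ∈ {om : Cf C T | om c ∈ L c y}} ≤ α * (C a.2).Pr T p (L a.2 y) := by
    intro y
    have h4 := LLLA.Pr_biInter hq ({a.1, a.2} : Finset (Fin n)) (fun c => ({c} : Finset (Fin n)))
      (fun c => {om : Cf C T | om c ∈ L c y})
      (fun c _ => LLLA.dep_class (K := fun c => (C c).Wk T) (β := fun _ => Bool) c (L c y))
      (fun b _ b' _ hb => by simpa using hb)
    have h5 : ∀ c, LLLA.Pr (W := Fin n) (α := fun c => (C c).Wk T → Bool)
        (LLLA.cwt (K := fun c => (C c).Wk T) (β := fun _ => Bool) fun _ => qq p)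
        {om : Cf C T | om c ∈ L c y} = (C c).Pr T p (L c y) := fun c =>
      LLLA.Pr_class (K := fun c => (C c).Wk T) (β := fun _ => Bool)
        (fun c => qq_prob c p h0 h1) c (L c y)
    rw [Finset.prod_insert (by simpa using ha), Finset.prod_singleton, h5, h5] at h4
    show LLLA.Pr _ _ ≤ _
    rw [h4]
    exact mul_le_mul_of_nonneg_right (hα _ _) (LLLA.Pr_nonneg (qq_prob a.2 p h0 h1) _)
  refine (Finset.sum_le_sum fun y _ => h3 y).trans ?_
  rw [← Finset.mul_sum]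
  exact mul_le_mul_of_nonneg_left (hβ _) hα0

omit [Fintype V] in
theorem fixc_ne (c : Fin n) (om et : Cf C T) (c' : Fin n) (h : c' ≠ c) :
    fixc c om et c' = et c' := by
  unfold fixc LLLA.mix
  rw [if_neg (by simpa using h)]

/-- the general estimate -/
theorem Pr_dupG (p : ℝ) (h0 : 0 ≤ p) (h1 : p ≤ 1) (L : ∀ c : Fin n, V → Set ((C c).Wk T → Bool))
    (α β : ℝ) (hα : ∀ c y, (C c).Pr T p (L c y) ≤ α) (hβ : ∀ c, ∑ y, (C c).Pr T p (L c y) ≤ β)
    (hα0 : 0 ≤ α) (hβ0 : 0 ≤ β) (m : ℕ) (hm : 1 ≤ m) (c : Fin n) (om : Cf C T) :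
    PC C T p {et | fixc c om et ∈ dupG L (m + 1)} ≤
      (Real.exp 1 * (n ^ 2 * (α * β)) / m) ^ m := by
  have hq := cw_prob (C := C) (T := T) p h0 h1
  have h2 := LLLA.Pr_items' hq (J := Fin n × Fin n) (fun a => ({a.1, a.2} : Finset (Fin n)))
    (evP L) (dep_evP L) (fun _ => α * β) (Pr_evP p h0 h1 L α β hα hβ hα0 hβ0) hm
  rw [Finset.sum_const, Finset.card_univ, Fintype.card_prod, Fintype.card_fin, nsmul_eq_mul] at h2
  have e1 : (((n * n : ℕ) : ℝ)) * (α * β) = (n : ℝ) ^ 2 * (α * β) := by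
    push_cast
    ring
  rw [e1] at h2
  refine le_trans (LLLA.Pr_mono hq ?_) h2
  rintro et ⟨B, hB1, hB2, hB3⟩
  -- at most one pair contains `c`
  obtain ⟨B', hB', hB'c⟩ : ∃ B' : Finset (Fin n × Fin n), B' ⊆ B.filter (fun a => a.1 ≠ c ∧
      a.2 ≠ c) ∧ B'.card = m := by
    apply Finset.exists_subset_card_eq
    have h3 : (B.filter (fun a => ¬ (a.1 ≠ c ∧ a.2 ≠ c))).card ≤ 1 := by
      rw [Finset.card_le_one]
      intro a ha b hb
      by_contra hab
      obtain ⟨ha1, ha2⟩ := Finset.mem_filter.1 ha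
      obtain ⟨hb1, hb2⟩ := Finset.mem_filter.1 hb
      have h4 := hB3 a ha1 b hb1 hab
      have ha3 : c ∈ ({a.1, a.2} : Finset (Fin n)) := by
        rw [Finset.mem_insert, Finset.mem_singleton]
        by_contra hc
        push Not at hc
        exact ha2 ⟨fun h => hc.1 h.symm, fun h => hc.2 h.symm⟩
      have hb3 : c ∈ ({b.1, b.2} : Finset (Fin n)) := by
        rw [Finset.mem_insert, Finset.mem_singleton]
        by_contra hc
        push Not at hc
        exact hb2 ⟨fun h => hc.1 h.symm, fun h => hc.2 h.symm⟩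
      exact Finset.disjoint_left.1 h4 ha3 hb3
    have h5 := Finset.card_filter_add_card_filter_not (s := B) (fun a => a.1 ≠ c ∧ a.2 ≠ c)
    omega
  refine ⟨B', hB'c, fun a ha b hb hab => hB3 a (Finset.mem_filter.1 (hB' ha)).1 b
    (Finset.mem_filter.1 (hB' hb)).1 hab, fun a ha => ?_⟩
  obtain ⟨ha1, ha2, ha3⟩ := Finset.mem_filter.1 (hB' ha)
  obtain ⟨h6, y, hy1, hy2⟩ := hB2 a ha1
  rw [fixc_ne c om et _ ha2] at hy1
  rw [fixc_ne c om et _ ha3] at hy2
  exact ⟨h6, y, hy1, hy2⟩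

/-- PRE -/
theorem pre (hP : PLKStmt) : PREStmt := by
  intro V _ n C d T p z r hpar v m hm c om
  have h0 : 0 ≤ p := (hpar c).p0.le
  have h1 : p ≤ 1 := (hpar c).ph.trans (by norm_num)
  have hd : 0 < d := by
    have := (hpar c).ok.one_le
    linarith
  have hr : 0 ≤ r := by
    rw [← (hpar c).zr]
    have := (hpar c).z0
    positivity
  have hα0 : 0 ≤ 2 * r / d := by positivity
  have hβ0 : 0 ≤ 2 * r := by positivity
  have e1 : 2 * r / d * (2 * r) = 4 * r ^ 2 / d := by ring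
  constructor
  · have h2 := Pr_dupG p h0 h1 (fun c y => {om : (C c).Wk T → Bool | lnk om v y}) (2 * r / d)
      (2 * r) (fun c y => (hP V (C c) d T p z r (hpar c)).1 v y)
      (fun c => (hP V (C c) d T p z r (hpar c)).2.1 v) hα0 hβ0 m hm c om
    rw [e1] at h2
    exact h2
  · have h2 := Pr_dupG p h0 h1 (fun c x => {om : (C c).Wk T → Bool | lnk om x v}) (2 * r / d)
      (2 * r) (fun c x => (hP V (C c) d T p z r (hpar c)).1 x v)
      (fun c => (hP V (C c) d T p z r (hpar c)).2.2.1 v) hα0 hβ0 m hm c om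
    rw [e1] at h2
    exact h2

end

end Pool.Agent.C4K.H76
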